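import Pool.Agent.Lib.MP_b0c2b5_co.AT.Z2b

/-!
The Gyarfas-Sumner property for Hasse diagrams (Q1): the Hasse diagrams of the finite posets without an induced copy of a
fixed tree `T` have bounded chromatic number.
-/

set_option autoImplicit false

namespace Pool.Agent.Results.MP_b0c2b5_co.HasseDiagrams

universe u v

/-- Let `T` be a finite tree. There is a constant `C` such that the Hasse diagram of every finite poset `P` without an
induced copy of `T` is colourable with `C` colours. -/
theorem result {W : Type v} [Finite W] (T : SimpleGraph W) (hT : T.IsTree) :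
    ∃ C : ℕ, ∀ (P : Type u) [Finite P] [PartialOrder P],
      IsEmpty (T ↪g SimpleGraph.hasse P) → (SimpleGraph.hasse P).Colorable C :=
  Pool.Agent.Lib.MP_b0c2b5_co.AT.hasse_tree T hT

end Pool.Agent.Results.MP_b0c2b5_co.HasseDiagrams
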