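import Pool.Agent.Lib.MP_b0c2b5_co.IO.Embed

/-!
The Gyarfas-Sumner property for Hasse diagrams of interval orders, for all trees, with a quadratic bound.
-/

set_option autoImplicit false

namespace Pool.Agent.Results.MP_b0c2b5_co.IntervalOrders

open Pool.Agent.Lib.MP_b0c2b5_co.LS Pool.Agent.Lib.MP_b0c2b5_co.IO

universe u v

/-- `P` is an interval order: its elements are closed intervals `[l v, r v]` of the real line, and `u < v` if and
only if the interval of `u` lies completely to the left of the interval of `v` -/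
def IsIntervalOrder (P : Type u) [PartialOrder P] : Prop :=
  ∃ l r : P → ℝ, (∀ v, l v ≤ r v) ∧ ∀ u v, u < v ↔ r u < l v

/-- Let `T` be a tree, `P` a finite interval order and `S` a set of elements of `P`. If the subgraph of the Hasse
diagram of `P` induced on `S` has no induced copy of `T`, then its chromatic number is at most `20 |T| ^ 2`. -/
theorem result {A : Type v} [Fintype A] (T : SimpleGraph A) (hT : T.IsTree)
    (P : Type u) [Finite P] [PartialOrder P] (hP : IsIntervalOrder P) (S : Set P)
    (hfree : IsEmpty (T ↪g (SimpleGraph.hasse P).induce S)) :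
    ((SimpleGraph.hasse P).induce S).Colorable (20 * Fintype.card A ^ 2) := by
  classical
  cases nonempty_fintype P
  obtain ⟨l, r, hle, hlt⟩ := hP
  obtain ⟨h, h1, h2⟩ := exists_height P
  have H : Rep l r h := ⟨hle, hlt, h1, h2⟩
  have hpos : 0 < Fintype.card A := by
    rw [Fintype.card_pos_iff]
    exact hT.connected.nonempty
  obtain ⟨j, hj⟩ : ∃ j, Fintype.card A = j + 1 := ⟨Fintype.card A - 1, by omega⟩
  have hempty : Vs r h (5 * (j+1)) S j = ∅ := by
    by_contra hne
    have hne' : (Vs r h (5 * (j+1)) S (0 + j)).Nonempty := by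
      rw [Nat.zero_add]
      exact Set.nonempty_iff_ne_empty.2 hne
    obtain ⟨φ, hinj, hadj, hV, -⟩ := embed H (5 * (j+1)) S j le_rfl A T hT hj 0 hne'
    have hS : ∀ x, φ x ∈ S := hV
    refine hfree.false ⟨⟨fun x => ⟨φ x, hS x⟩, ?_⟩, ?_⟩
    · intro x y hxy
      exact hinj (congrArg Subtype.val hxy)
    · intro x y
      exact hadj x y
  obtain ⟨f, hf, hf2⟩ := col_of_empty H (5 * (j+1)) S j hempty
  have hbound : j * ((2 * (5 * (j+1)) + 1) * 2) ≤ 20 * Fintype.card A ^ 2 := by
    rw [hj]
    nlinarith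
  refine ⟨⟨fun v => ⟨f v.1, lt_of_lt_of_le (hf v.1 v.2) hbound⟩, ?_⟩⟩
  intro v w hvw he
  have he' : f v.1 = f w.1 := congrArg Fin.val he
  rcases (SimpleGraph.hasse_adj.1 hvw) with h3 | h3
  · exact hf2 v.1 v.2 w.1 w.2 h3 he'
  · exact hf2 w.1 w.2 v.1 v.2 h3 he'.symm

end Pool.Agent.Results.MP_b0c2b5_co.IntervalOrders
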